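import Pool.Agent.Q68.PQ.Bas
import Pool.Agent.Q151.LQ.LMQ

/-!
# Project PQ (helper145), LMP: mean and mean square of the local factor (helper68; after helper151, `LQ/LMQ.lean`)
-/

set_option autoImplicit false

namespace Pool.Agent.Q68.PQ

open Finset Filter Pool.Agent.Q145.SZ Pool.Agent.Q145.LQ Pool.Agent.Q145.PQ Pool.Agent.Q151.LQ

section
variable {p : ℕ} [Fact p.Prime]

/-- number of nonzero classes avoiding all zeros -/
noncomputable def NP {K : ℕ} (q : Fin K → Polynomial ℤ) (S : Fin K → ZMod p) : ℝ :=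
  ∑ x : ZMod p, nz x * ∏ i, nz (ev (q i) x + S i)

theorem NP_eq {K : ℕ} (q : Fin K → Polynomial ℤ) (s : Fin K → ℕ) :
    (p : ℝ) - nuP q s p = NP (p := p) q (fun i => (s i : ZMod p)) := by
  rw [nuP_eq, NQ_eq (p := p)]
  unfold NQ NP
  refine sum_congr rfl fun x _ => ?_
  rw [Fin.prod_univ_succ]
  unfold qx s0
  simp only [Fin.cons_zero, Fin.cons_succ, ev_X, Nat.cast_zero, add_zero]

theorem sum_nz' : ∑ c : ZMod p, nz c = (p : ℝ) - 1 := by
  have h := sum_nz (p := p) 0
  simpa using h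

theorem nz_nonneg (c : ZMod p) : 0 ≤ nz c := by
  unfold nz
  split_ifs <;> norm_num

theorem nz_le_one (c : ZMod p) : nz c ≤ 1 := by
  unfold nz
  split_ifs <;> norm_num

theorem firstP {K : ℕ} (q : Fin K → Polynomial ℤ) :
    ∑ S : Fin K → ZMod p, NP q S = ((p : ℝ) - 1) * ((p : ℝ) - 1) ^ K := by
  classical
  unfold NP
  rw [sum_comm]
  have h1 : ∀ x : ZMod p, ∑ S : Fin K → ZMod p, nz x * ∏ i, nz (ev (q i) x + S i) =
      nz x * ((p : ℝ) - 1) ^ K := by
    intro x
    have h2 := Finset.prod_univ_sum (fun _ : Fin K => (univ : Finset (ZMod p)))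
      (fun i c => nz (ev (q i) x + c))
    rw [Fintype.piFinset_univ] at h2
    rw [← mul_sum, ← h2, prod_congr rfl fun i _ => sum_nz (ev (q i) x), prod_const, card_univ,
      Fintype.card_fin]
  rw [sum_congr rfl fun x _ => h1 x, ← sum_mul, sum_nz']

theorem secondP {K : ℕ} (q : Fin K → Polynomial ℤ) :
    ∑ S : Fin K → ZMod p, NP q S ^ 2 = ∑ x : ZMod p, ∑ y : ZMod p,
      nz x * nz y * ∏ i, ((p : ℝ) - 2 + if ev (q i) x = ev (q i) y then 1 else 0) := by
  classical
  have h1 : ∀ S : Fin K → ZMod p, NP q S ^ 2 =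
      ∑ x : ZMod p, ∑ y : ZMod p, nz x * nz y *
        ∏ i, (nz (ev (q i) x + S i) * nz (ev (q i) y + S i)) := by
    intro S
    unfold NP
    rw [sq, sum_mul_sum]
    refine sum_congr rfl fun c _ => sum_congr rfl fun c' _ => ?_
    rw [prod_mul_distrib]
    ring
  rw [sum_congr rfl fun S _ => h1 S, sum_comm]
  refine sum_congr rfl fun x _ => ?_
  rw [sum_comm]
  refine sum_congr rfl fun y _ => ?_
  have h2 := Finset.prod_univ_sum (fun _ : Fin K => (univ : Finset (ZMod p)))
      (fun i c => nz (ev (q i) x + c) * nz (ev (q i) y + c))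
  rw [Fintype.piFinset_univ] at h2
  rw [← mul_sum, ← h2]
  congr 1
  exact prod_congr rfl fun i _ => sum_nz2 _ _

end

theorem t_LMP : S_LMP := by
  classical
  intro d p K q hp hK hq
  have : Fact p.Prime := ⟨hp⟩
  have hp2 : (2 : ℝ) ≤ p := by exact_mod_cast hp.two_le
  have hp0 : (0 : ℝ) < p := by linarith
  have hq0 : (0 : ℝ) < (p : ℝ) - 1 := by linarith
  have hr : (0 : ℝ) < 1 - 1 / (p : ℝ) := by
    rw [sub_pos, div_lt_one hp0]; linarith
  have hr1 : 1 - 1 / (p : ℝ) = ((p : ℝ) - 1) / p := by field_simp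
  have hloc : ∀ s : Fin K → ℕ, locP q s p =
      NP (p := p) q (fun i => (s i : ZMod p)) * ((p : ℝ) * (1 - 1 / (p : ℝ)) ^ (K + 1))⁻¹ := by
    intro s
    rw [← NP_eq]
    unfold locP
    have : (0 : ℝ) < (1 - 1 / (p : ℝ)) ^ (K + 1) := by positivity
    field_simp
  have hcard : ((Fintype.piFinset (fun _ : Fin K => range p)).card : ℝ) = (p : ℝ) ^ K := by
    rw [Fintype.card_piFinset, prod_const, card_range, card_univ, Fintype.card_fin]
    push_cast
    rfl
  have hmean : ∑ s ∈ Fintype.piFinset (fun _ : Fin K => range p), locP q s p = (p : ℝ) ^ K := by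
    rw [sum_congr rfl fun s _ => hloc s, ← sum_mul, sum_range_zmod (p := p) K (fun S => NP q S), firstP, hr1]
    rw [div_pow, pow_succ, pow_succ]
    field_simp
  constructor
  · rw [sum_sub_distrib, hmean, sum_const, nsmul_eq_mul, mul_one, hcard, sub_self]
  · have h1 : ∑ s ∈ Fintype.piFinset (fun _ : Fin K => range p), (locP q s p - 1) ^ 2 =
        (∑ s ∈ Fintype.piFinset (fun _ : Fin K => range p), locP q s p ^ 2) - (p : ℝ) ^ K := by
      have : ∀ s ∈ Fintype.piFinset (fun _ : Fin K => range p),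
          (locP q s p - 1) ^ 2 = locP q s p ^ 2 - 2 * locP q s p + 1 := fun s _ => by ring
      rw [sum_congr rfl this, sum_add_distrib, sum_sub_distrib, ← mul_sum, hmean, sum_const,
        nsmul_eq_mul, mul_one, hcard]
      ring
    -- the second moment
    have h2 : ∑ s ∈ Fintype.piFinset (fun _ : Fin K => range p), locP q s p ^ 2 =
        (p : ℝ) ^ K * ((((p : ℝ) - 1) ^ 2)⁻¹ * ∑ x : ZMod p, ∑ y : ZMod p, nz x * nz y *
          ∏ i, (((p : ℝ) - 2 + if ev (q i) x = ev (q i) y then 1 else 0) * (p / ((p : ℝ) - 1) ^ 2))) := by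
      have e1 : ∀ s ∈ Fintype.piFinset (fun _ : Fin K => range p), locP q s p ^ 2 =
          NP (p := p) q (fun i => (s i : ZMod p)) ^ 2 * (((p : ℝ) * (1 - 1 / (p : ℝ)) ^ (K + 1))⁻¹) ^ 2 := fun s _ => by
        rw [hloc s, mul_pow]
      have e2 : ∀ x y : ZMod p, nz x * nz y * ∏ i, (((p : ℝ) - 2 + if ev (q i) x = ev (q i) y then 1 else 0) * (p / ((p : ℝ) - 1) ^ 2)) =
          (nz x * nz y * ∏ i, ((p : ℝ) - 2 + if ev (q i) x = ev (q i) y then 1 else 0)) * (p / ((p : ℝ) - 1) ^ 2) ^ K := by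
        intro x y
        rw [prod_mul_distrib, prod_const, card_univ, Fintype.card_fin, mul_assoc (nz x * nz y)]
      rw [sum_congr rfl e1, ← sum_mul, sum_range_zmod (p := p) K (fun S => NP q S ^ 2), secondP,
        sum_congr rfl fun x _ => sum_congr rfl fun y _ => e2 x y]
      simp_rw [← sum_mul]
      obtain ⟨B, hB⟩ : ∃ B : ℝ, B = ∑ x : ZMod p, ∑ y : ZMod p, nz x * nz y *
        ∏ i, ((p : ℝ) - 2 + if ev (q i) x = ev (q i) y then 1 else 0) := ⟨_, rfl⟩
      rw [← hB, hr1, div_pow, div_pow]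
      have e3 : (((p : ℝ) - 1) ^ 2) ^ K = ((p : ℝ) - 1) ^ K * ((p : ℝ) - 1) ^ K := by
        rw [← pow_mul, mul_comm, pow_mul, sq]
      rw [e3]
      field_simp
      ring
    rcases Nat.eq_zero_or_pos K with hK0 | hK0
    · subst hK0
      rw [h1, h2]
      have e5 : ∑ x : ZMod p, ∑ y : ZMod p, nz x * nz y = ((p : ℝ) - 1) ^ 2 := by
        simp_rw [← mul_sum]
        rw [← sum_mul, sum_nz', sq]
      simp only [Finset.univ_eq_empty, Finset.prod_empty, mul_one, pow_zero, one_mul]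
      rw [e5, inv_mul_cancel₀ (by positivity)]
      simp
    have hd1 : 1 ≤ d := (hq ⟨0, hK0⟩).1.trans (hq ⟨0, hK0⟩).2.1
    have hKp : K ≤ p - 1 := by
      have : 8 * 1 * (K + 1) ≤ 8 * d * (K + 1) := by gcongr
      omega
    have hKp' : (K : ℝ) ≤ (p : ℝ) - 1 := by
      have h3 : ((K : ℕ) : ℝ) ≤ ((p - 1 : ℕ) : ℝ) := by exact_mod_cast hKp
      rwa [Nat.cast_sub hp.one_lt.le, Nat.cast_one] at h3
    have hfac : ∀ x y : ZMod p, ∏ i, (((p : ℝ) - 2 + if ev (q i) x = ev (q i) y then 1 else 0) * (p / ((p : ℝ) - 1) ^ 2)) ≤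
        1 + 4 / p * ∑ i, (if ev (q i) x = ev (q i) y then (1 : ℝ) else 0) := by
      intro x y
      obtain ⟨κ, hκ⟩ : ∃ κ : ℝ, κ = ∑ i, (if ev (q i) x = ev (q i) y then (1 : ℝ) else 0) := ⟨_, rfl⟩
      have hκ0 : 0 ≤ κ := by
        rw [hκ]
        exact sum_nonneg fun i _ => by split_ifs <;> norm_num
      have hκK : κ ≤ K := by
        rw [hκ]
        refine (sum_le_card_nsmul _ _ 1 fun i _ => ?_).trans ?_
        · split_ifs <;> norm_num
        · simp
      have e1 : ∀ i ∈ (univ : Finset (Fin K)),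
          ((p : ℝ) - 2 + if ev (q i) x = ev (q i) y then 1 else 0) * (p / ((p : ℝ) - 1) ^ 2) ≤
          Real.exp ((if ev (q i) x = ev (q i) y then (1 : ℝ) else 0) * (1 / ((p : ℝ) - 1))) := by
        intro i _
        refine le_trans ?_ (Real.add_one_le_exp _)
        split_ifs
        · rw [mul_div_assoc', div_le_iff₀ (by positivity)]
          have : (1 * (1 / ((p : ℝ) - 1)) + 1) * ((p : ℝ) - 1) ^ 2 = ((p : ℝ) - 1) + ((p : ℝ) - 1) ^ 2 := by
            field_simp
          rw [this]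
          apply le_of_eq
          ring
        · rw [mul_div_assoc', div_le_iff₀ (by positivity)]
          nlinarith
      have e2 : ∀ i ∈ (univ : Finset (Fin K)), 0 ≤
          ((p : ℝ) - 2 + if ev (q i) x = ev (q i) y then 1 else 0) * (p / ((p : ℝ) - 1) ^ 2) := by
        intro i _
        refine mul_nonneg ?_ (by positivity)
        split_ifs <;> linarith
      have e3 := prod_le_prod e2 e1
      refine e3.trans ?_
      rw [← Real.exp_sum, ← sum_mul, ← hκ]
      have e4 : κ * (1 / ((p : ℝ) - 1)) ≤ 1 := by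
        rw [mul_one_div, div_le_one hq0]
        linarith
      refine (exp_le' (by positivity) e4).trans ?_
      have e5 : 2 * (κ * (1 / ((p : ℝ) - 1))) ≤ 4 / p * κ := by
        have e6 : 2 * (1 / ((p : ℝ) - 1)) ≤ 4 / p := by
          rw [mul_one_div, div_le_div_iff₀ hq0 hp0]
          linarith
        nlinarith [mul_le_mul_of_nonneg_right e6 hκ0]
      linarith
    have hκsum : ∀ x : ZMod p, ∑ y : ZMod p, nz y * ∑ i, (if ev (q i) x = ev (q i) y then (1 : ℝ) else 0) ≤ d * K := by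
      intro x
      have e0 : ∑ y : ZMod p, nz y * ∑ i, (if ev (q i) x = ev (q i) y then (1 : ℝ) else 0) ≤
          ∑ y : ZMod p, ∑ i, (if ev (q i) x = ev (q i) y then (1 : ℝ) else 0) := by
        refine sum_le_sum fun y _ => ?_
        have : (0 : ℝ) ≤ ∑ i, (if ev (q i) x = ev (q i) y then (1 : ℝ) else 0) :=
          sum_nonneg fun i _ => by split_ifs <;> norm_num
        exact mul_le_of_le_one_left this (nz_le_one y)
      refine e0.trans ?_
      rw [sum_comm]
      have e2 : ∀ i ∈ (univ : Finset (Fin K)), ∑ y : ZMod p, (if ev (q i) x = ev (q i) y then (1 : ℝ) else 0) ≤ d := by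
        intro i _
        have e3 : ∑ y : ZMod p, (if ev (q i) x = ev (q i) y then (1 : ℝ) else 0) =
            ((univ.filter fun y : ZMod p => ev (q i) y = ev (q i) x).card : ℝ) := by
          rw [sum_boole]
          congr 2
          ext y
          simp only [mem_filter, mem_univ, true_and]
          exact eq_comm
        rw [e3]
        exact_mod_cast roots_le (q i) (hq i).1 (hq i).2.1 (hq i).2.2 _
      refine (sum_le_card_nsmul _ _ _ e2).trans ?_
      rw [card_univ, Fintype.card_fin, nsmul_eq_mul, mul_comm]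
    have hmain : (((p : ℝ) - 1) ^ 2)⁻¹ * ∑ x : ZMod p, ∑ y : ZMod p, nz x * nz y *
          ∏ i, (((p : ℝ) - 2 + if ev (q i) x = ev (q i) y then 1 else 0) * (p / ((p : ℝ) - 1) ^ 2)) ≤
        1 + 16 * d * K / (p : ℝ) ^ 2 := by
      have e1 : ∑ x : ZMod p, ∑ y : ZMod p, nz x * nz y *
          ∏ i, (((p : ℝ) - 2 + if ev (q i) x = ev (q i) y then 1 else 0) * (p / ((p : ℝ) - 1) ^ 2)) ≤
          ∑ x : ZMod p, ∑ y : ZMod p, nz x * nz y * (1 + 4 / p * ∑ i, (if ev (q i) x = ev (q i) y then (1 : ℝ) else 0)) :=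
        sum_le_sum fun x _ => sum_le_sum fun y _ =>
          mul_le_mul_of_nonneg_left (hfac x y) (mul_nonneg (nz_nonneg x) (nz_nonneg y))
      have e2 : ∑ x : ZMod p, ∑ y : ZMod p, nz x * nz y * (1 + 4 / p * ∑ i, (if ev (q i) x = ev (q i) y then (1 : ℝ) else 0)) =
          ((p : ℝ) - 1) ^ 2 + 4 / p * ∑ x : ZMod p, nz x * ∑ y : ZMod p, nz y * ∑ i, (if ev (q i) x = ev (q i) y then (1 : ℝ) else 0) := by
        have e3 : ∀ x y : ZMod p, nz x * nz y * (1 + 4 / p * ∑ i, (if ev (q i) x = ev (q i) y then (1 : ℝ) else 0)) =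
            nz x * nz y + 4 / p * (nz x * (nz y * ∑ i, (if ev (q i) x = ev (q i) y then (1 : ℝ) else 0))) := by
          intro x y
          ring
        rw [sum_congr rfl fun x _ => sum_congr rfl fun y _ => e3 x y]
        simp_rw [sum_add_distrib, ← mul_sum]
        rw [← sum_mul, sum_nz', sq]
      have e3 : ∑ x : ZMod p, nz x * ∑ y : ZMod p, nz y * ∑ i, (if ev (q i) x = ev (q i) y then (1 : ℝ) else 0) ≤
          ((p : ℝ) - 1) * (d * K) := by
        refine (sum_le_sum fun x _ => mul_le_mul_of_nonneg_left (hκsum x) (nz_nonneg x)).trans ?_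
        rw [← sum_mul, sum_nz']
      have e4 : 4 / (p : ℝ) * ∑ x : ZMod p, nz x * ∑ y : ZMod p, nz y * ∑ i, (if ev (q i) x = ev (q i) y then (1 : ℝ) else 0) ≤
          4 / p * (((p : ℝ) - 1) * (d * K)) := mul_le_mul_of_nonneg_left e3 (by positivity)
      rw [inv_mul_le_iff₀ (by positivity)]
      refine e1.trans (e2.le.trans ?_)
      have hdK : (0 : ℝ) ≤ (d : ℝ) * K := by positivity
      have e5 : 4 / (p : ℝ) * (((p : ℝ) - 1) * (d * K)) ≤ ((p : ℝ) - 1) ^ 2 * (16 * d * K / (p : ℝ) ^ 2) := by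
        rw [div_mul_eq_mul_div, mul_div_assoc', div_le_div_iff₀ hp0 (by positivity)]
        have e6 : 4 * (((p : ℝ) - 1) * (d * K)) * (p : ℝ) ^ 2 =
            (4 * (p : ℝ)) * (((p : ℝ) - 1) * ((d : ℝ) * K) * p) := by ring
        have e7 : ((p : ℝ) - 1) ^ 2 * (16 * d * K) * p =
            (16 * ((p : ℝ) - 1)) * (((p : ℝ) - 1) * ((d : ℝ) * K) * p) := by ring
        rw [e6, e7]
        exact mul_le_mul_of_nonneg_right (by linarith) (by positivity)
      rw [mul_add, mul_one]
      linarith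
    rw [h1, h2]
    have hpK : (0 : ℝ) < (p : ℝ) ^ K := by positivity
    have := mul_le_mul_of_nonneg_left hmain hpK.le
    linarith

end Pool.Agent.Q68.PQ

/-- the job LMP -/
theorem Pool.Agent.Q145.PQ.t_LMP : Pool.Agent.Q145.PQ.S_LMP := Pool.Agent.Q68.PQ.t_LMP
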