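import Pool.Agent.Q68.PQ.Bas

/-!
# Project PQ (helper145), MBP: the mean value and the singular series (helper68; after helper151, `LQ/MBQ.lean`)
-/

set_option autoImplicit false

namespace Pool.Agent.Q68.PQ

open Finset Filter Pool.Agent.Q145.SZ Pool.Agent.Q145.LQ Pool.Agent.Q145.PQ Pool.Agent.Q151.LQ

theorem t_MBP : S_MBP := by
  classical
  intro d z Y K q s
  constructor
  · unfold MbP
    rw [GP_eq, card_GQ, singPP_eq, ← main_eq]
    ring
  · intro hK hq
    rw [GP_eq, ← Finset.card_pos, card_GQ, cG_PW]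
    rw [Nat.pos_iff_ne_zero, Finset.prod_ne_zero_iff]
    constructor
    · intro h p hp
      rw [mem_filter] at hp
      have := h p hp.2
      rw [nuP_eq] at this
      omega
    · intro h p hp
      by_cases hz : p ≤ z
      · have := h p (mem_filter.2 ⟨mem_Icc.2 ⟨hp.one_lt.le, hz⟩, hp⟩)
        rw [nuP_eq]
        omega
      · have := nuP_le_mul (d := d) q s hp (fun i =>
          ⟨(hq i).1, (hq i).2.1, not_dvd_lead (hq i).1 (hq i).2.2 (not_le.1 hz)⟩)
        omega

end Pool.Agent.Q68.PQ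

/-- the job MBP -/
theorem Pool.Agent.Q145.PQ.t_MBP : Pool.Agent.Q145.PQ.S_MBP := Pool.Agent.Q68.PQ.t_MBP
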