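import Pool.Agent.Q145.PQ.Stm
import Pool.Agent.Q151.LQ.MBQ

/-!
# Project PQ (helper145): the system `x, q_1, ..., q_K` with the constants `0, s_1, ..., s_K` (helper68)
-/

set_option autoImplicit false

namespace Pool.Agent.Q68.PQ

open Finset Filter Pool.Agent.Q145.SZ Pool.Agent.Q145.LQ Pool.Agent.Q145.PQ Pool.Agent.Q151.LQ

/-- the system with the polynomial `x` in front -/
noncomputable def qx {K : ℕ} (q : Fin K → Polynomial ℤ) : Fin (K + 1) → Polynomial ℤ := Fin.cons Polynomial.X q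

/-- the constants with `0` in front -/
def s0 {K : ℕ} (s : Fin K → ℕ) : Fin (K + 1) → ℕ := Fin.cons 0 s

theorem ev_X {W : ℕ} (x : ZMod W) : ev (Polynomial.X : Polynomial ℤ) x = x := by
  unfold ev
  exact Polynomial.aeval_X x

theorem GP_eq {W : ℕ} [NeZero W] {K : ℕ} (q : Fin K → Polynomial ℤ) (s : Fin K → ℕ) :
    GP q (fun i => (s i : ZMod W)) = GQ (qx q) (fun i => (s0 s i : ZMod W)) := by
  classical
  ext x
  unfold GP GQ
  simp only [mem_filter, mem_univ, true_and, Fin.forall_fin_succ]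
  unfold qx s0
  simp only [Fin.cons_zero, Fin.cons_succ, ev_X, Nat.cast_zero, add_zero]

theorem nuP_eq {K : ℕ} (q : Fin K → Polynomial ℤ) (s : Fin K → ℕ) (p : ℕ) :
    nuP q s p = nuQ (qx q) (s0 s) p := by
  unfold nuP nuQ
  congr 1
  refine filter_congr fun n hn => ?_
  rw [mem_range] at hn
  rw [Fin.exists_fin_succ]
  unfold qx s0
  simp only [Fin.cons_zero, Fin.cons_succ, Polynomial.eval_X, Nat.cast_zero, add_zero]
  refine or_congr ?_ Iff.rfl
  constructor
  · rintro rfl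
    simp
  · intro h
    rw [Int.natCast_dvd_natCast] at h
    by_contra h0
    exact absurd (Nat.le_of_dvd (Nat.pos_of_ne_zero h0) h) (by omega)

theorem locP_eq {K : ℕ} (q : Fin K → Polynomial ℤ) (s : Fin K → ℕ) (p : ℕ) :
    locP q s p = locQ (qx q) (s0 s) p := by
  unfold locP locQ
  rw [nuP_eq]

theorem singPP_eq {K : ℕ} (q : Fin K → Polynomial ℤ) (s : Fin K → ℕ) (w : ℕ) :
    singPP q s w = singPQ (qx q) (s0 s) w := by
  unfold singPP singPQ
  exact prod_congr rfl fun p _ => locP_eq q s p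

theorem nuP_le {K : ℕ} (q : Fin K → Polynomial ℤ) (s : Fin K → ℕ) (p : ℕ) : nuP q s p ≤ p := by
  rw [nuP_eq]
  exact nuQ_le _ _ _

/-- `nuP ≤ 1 + nuQ` -/
theorem nuP_le_one_add {K : ℕ} (q : Fin K → Polynomial ℤ) (s : Fin K → ℕ) (p : ℕ) :
    nuP q s p ≤ 1 + nuQ q s p := by
  classical
  unfold nuP nuQ
  refine (card_le_card (t := insert 0 ((range p).filter fun n : ℕ =>
    ∃ i, (p : ℤ) ∣ (q i).eval (n : ℤ) + s i)) ?_).trans ?_
  · intro n hn
    rw [mem_filter] at hn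
    rw [mem_insert, mem_filter]
    rcases hn.2 with h | h
    · exact Or.inl h
    · exact Or.inr ⟨hn.1, h⟩
  · refine (card_insert_le _ _).trans ?_
    rw [add_comm]

theorem nuP_le_mul {K d : ℕ} (q : Fin K → Polynomial ℤ) (s : Fin K → ℕ) {p : ℕ} (hp : p.Prime)
    (hq : ∀ i, 1 ≤ (q i).natDegree ∧ (q i).natDegree ≤ d ∧ ¬ (p : ℤ) ∣ (q i).leadingCoeff) :
    nuP q s p ≤ d * K + 1 := by
  have h1 := nuP_le_one_add q s p
  have h2 := nuQ_le_mul q s hp hq
  omega

end Pool.Agent.Q68.PQ
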